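import Pool.Agent.K4H1.VN.RelAbs
import Pool.Agent.Run7.h822.NC.Gl

/-!
# Groups of matrices over noncommutative domains: a finite subset of a subgroup with (T) decides

`L2 G` is the Hilbert space `ℓ²(G)` with basis `delta g`, `lam` and `rho` are the left and the
right translations, and the group von Neumann algebra `L(G)` is the commutant of the right
translations: `InVN T` says that `T` belongs to it. An isomorphism `θ` of `L(Γ)` onto `L(Λ)` is
`θ(x) = U x U⁻¹` for a unitary operator `U` of `ℓ²(Γ)` onto `ℓ²(Λ)` (`IsSpatialIso U`; for groups with
infinite conjugacy classes every isomorphism is of this form).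

Let `R` be a domain of characteristic `0`, NOT NECESSARILY COMMUTATIVE, in which every element
`a ≠ 0` divides a positive integer: `b a = n` for some `b` in `R` (`DividesIntegers R`). This is the
case for all orders in division algebras over number fields, more generally for all domains which are
algebraic over `ℚ`, and for all division rings of characteristic `0`. The groups `Γ` are subgroups of
the group `GL_n(R)` of invertible `n × n` matrices, `n ≥ 3`, which contain a positive power of each
elementary matrix `1 + r E_ij`, `r` in `R`, `i ≠ j` (`Rich Γ`); they need not have property (T) and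
need not be finitely generated.

Let `Δ` be a finitely presented group with Kazhdan's property (T), for instance a subgroup of finite
index of `SL_n(ℤ)`, `n ≥ 3`. There are a finite subset `B` of `Δ` and `ε > 0`, which depend on `Δ`
ONLY, such that the following holds for all such `R`, `n` and `Γ`, every group `Λ`, and every
homomorphism `j : Δ → Γ` such that, for a set `T ∋ 1` of elements of `R`, the image of `j` contains a
positive power of `1 + t E_kl` for all `t` in `T` and all `k ≠ l`, and `Γ` has no scalar matrix
`a ≠ 1` such that `a` commutes with all `t` in `T` (`HasElems j`):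

if `θ` is an isomorphism of `L(Γ)` onto `L(Λ)` and each of the finitely many unitaries `θ(u_{j(b)})`,
`b` in `B`, has a Fourier coefficient of absolute value more than `1 - ε`, then `θ` is group-like up to
conjugation: there are an isomorphism of groups `π : Γ → Λ`, a character `χ` of `Γ` and a unitary `w`
in `L(Λ)` with `w⁻¹ θ(u_g) w = χ(g) u_{π(g)}` for all `g` in `Γ`.

Examples. (a) `T = {1}` and `Δ` of finite index in `SL_n(ℤ)`: `Γ` is any group as above which
contains `Δ` and has no scalar matrix except `1`, for instance any congruence subgroup of level at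
least `3` of `SL_n(O)`, `O` an order of a definite quaternion algebra over `ℚ`, for instance the
Hurwitz order. These are lattices in the simple group `PSL_n(ℍ)` of real rank `n - 1`; the same finite
set `B` of integral matrices decides for all of these orders. (b) `T` a set which generates the
division algebra and `Δ` of finite index in `SL_n(O)`: only the scalar matrices with a central
entry have to be absent.
-/

set_option autoImplicit false

namespace Pool.Agent.Results.MP_0f6f3f_an.NoncommutativeSeeds

open Pool.Agent.K4H1.VN
open Pool.Agent.Y276.Rig (PropertyT)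
open Run7.h822.NC (Rich HasElems DividesIntegers relIcc_of_elems gl_of_elems)

theorem result (Δ : Type) [Group Δ] [Group.IsFinitelyPresented Δ] (hT : PropertyT Δ) :
    ∃ (B : Finset Δ) (ε : ℝ), 0 < ε ∧
      ∀ (R : Type) [Ring R] [IsDomain R] [CharZero R], DividesIntegers R →
        ∀ (I : Type) [Fintype I] [DecidableEq I] (Γ : Subgroup (Matrix I I R)ˣ) (j : Δ →* Γ),
          3 ≤ Fintype.card I → Rich Γ → HasElems j → Decides B ε j := by
  obtain ⟨B, ε, hε, hB⟩ := rel_main hT
  refine ⟨B, ε, hε, fun R _ _ _ hR I _ _ Γ j hI hΓ hj Λ _ U hU hUB => ?_⟩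
  have hicc : RelIcc j := relIcc_of_elems hI hj
  obtain ⟨U₀, hU₀, h₀⟩ := exists_std hicc.isIcc hU
  obtain ⟨π₀, χ₀, w, T, hw, hT', h1, h2⟩ := hB Γ Λ j U₀ hicc hU₀.2 fun k hk => by
    obtain ⟨h, hh⟩ := hUB k hk
    refine ⟨h, ?_⟩
    rw [h₀]
    exact hh
  have hU₁ := stdIso_twist hU₀ hw hT' h1
  have hgl : ∀ d, GroupLikeAt ((U₀.trans T).trans w.symm) (j d) := fun d =>
    ⟨χ₀ d, π₀ d, twist_apply hU₀.2 hT' (h2 d)⟩
  obtain ⟨π, χ, hπ⟩ := exists_equiv hU₁ (gl_of_elems hR hI hΓ hj hU₁ hgl)
  refine ⟨π, χ, w, hw, fun g f => ?_⟩
  have h3 := twist_back hU₀.2 hT' (hπ g) f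
  have h4 := h₀ g (w f)
  rw [cv_apply, cv_apply] at h4
  rw [← h4, h3]

end Pool.Agent.Results.MP_0f6f3f_an.NoncommutativeSeeds
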